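import Pool.Agent.L7h71.GC.Bas

set_option autoImplicit false

/-! Project GC, part ISO. -/

namespace Pool.Agent.L7h44.GC

open Set Function FirstOrder FirstOrder.Language
open Pool.Agent.L7h66.UA (XIso)
open Pool.Agent.L7h71.GC

variable {L : FirstOrder.Language.{0, 0}}

/-- an isomorphism preserves the values of terms -/
theorem tr_iso {S S' : L.Structure ℕ} (f : @FirstOrder.Language.Equiv L ℕ ℕ S S') (v : ℕ → ℕ)
    (t : L.Term ℕ) :
    tr S' (fun i => @FirstOrder.Language.Equiv.toEquiv L ℕ ℕ S S' f (v i)) t =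
      @FirstOrder.Language.Equiv.toEquiv L ℕ ℕ S S' f (tr S v t) :=
  @HomClass.realize_term L ℕ ℕ S S' ℕ _ _ _ f t v

theorem fr_iso {S S' : L.Structure ℕ} (f : @FirstOrder.Language.Equiv L ℕ ℕ S S') (v : ℕ → ℕ)
    (φ : L.Formula ℕ) :
    fr S' (fun i => @FirstOrder.Language.Equiv.toEquiv L ℕ ℕ S S' f (v i)) φ ↔ fr S v φ :=
  @StrongHomClass.realize_formula L ℕ ℕ S S' ℕ _ _ _ f φ v

theorem G1_iso {S S' : L.Structure ℕ} (f : @FirstOrder.Language.Equiv L ℕ ℕ S S') (y p : ℕ) :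
    G1 S' (@FirstOrder.Language.Equiv.toEquiv L ℕ ℕ S S' f y)
      (@FirstOrder.Language.Equiv.toEquiv L ℕ ℕ S S' f p) ↔ G1 S y p := by
  constructor
  · rintro ⟨t, ht⟩
    rw [tr_iso f (fun _ => y) t] at ht
    exact ⟨t, (@FirstOrder.Language.Equiv.toEquiv L ℕ ℕ S S' f).injective ht⟩
  · rintro ⟨t, ht⟩
    exact ⟨t, by rw [tr_iso f (fun _ => y) t, ht]⟩

theorem TopP_iso {S S' : L.Structure ℕ} (f : @FirstOrder.Language.Equiv L ℕ ℕ S S') (y : ℕ) :
    TopP S' (@FirstOrder.Language.Equiv.toEquiv L ℕ ℕ S S' f y) ↔ TopP S y := by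
  constructor
  · intro h z hz
    exact (G1_iso f y z).1 (h _ ((G1_iso f z y).2 hz))
  · intro h z hz
    obtain ⟨w, rfl⟩ := (@FirstOrder.Language.Equiv.toEquiv L ℕ ℕ S S' f).surjective z
    exact (G1_iso f y w).2 (h w ((G1_iso f w y).1 hz))

theorem s_ISO (hG : S_GEN) : S_ISO := by
  intro L E hE S S' ρ ρ' hρ hρ'
  constructor
  · rintro ⟨f⟩
    have h1 : ∀ i, ∃ j, ρ' j = @FirstOrder.Language.Equiv.toEquiv L ℕ ℕ S S' f (ρ i) := fun i =>
      (hρ'.2 _).1 ((TopP_iso f (ρ i)).2 ((hρ.2 _).2 ⟨i, rfl⟩))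
    choose e he using h1
    have hinj : Injective e := by
      intro i j hij
      have h2 := (he i).symm.trans ((congrArg ρ' hij).trans (he j))
      exact hρ.1 ((@FirstOrder.Language.Equiv.toEquiv L ℕ ℕ S S' f).injective h2)
    have hsur : Surjective e := by
      intro j
      obtain ⟨w, hw⟩ := (@FirstOrder.Language.Equiv.toEquiv L ℕ ℕ S S' f).surjective (ρ' j)
      have h2 : TopP S w := by
        rw [← TopP_iso f w, hw]
        exact (hρ'.2 _).2 ⟨j, rfl⟩
      obtain ⟨i, rfl⟩ := (hρ.2 w).1 h2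
      exact ⟨i, hρ'.1 ((he i).trans hw)⟩
    refine ⟨Equiv.ofBijective e ⟨hinj, hsur⟩, fun m x => ?_⟩
    funext k
    unfold cod
    have h3 : (fun s => ρ' (tu (⇑(Equiv.ofBijective e ⟨hinj, hsur⟩) ∘ x) s)) =
        fun s => @FirstOrder.Language.Equiv.toEquiv L ℕ ℕ S S' f (ρ (tu x s)) := by
      funext s
      exact he _
    rw [h3]
    exact decide_eq_decide.2 (fr_iso f (fun s => ρ (tu x s)) (E k))
  · intro hd hd' hc
    have h1 : ∀ φ : L.Formula ℕ, φ.IsQF → (fr S ρ φ ↔ fr S' ρ' φ) := by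
      intro φ hφ
      obtain ⟨m, hm⟩ := fr_congr φ
      have h2 : ∀ s ≤ m, tu (fun i : Fin (m + 1) => (i : ℕ)) s = s := by
        intro s hs
        show min s m = s
        exact min_eq_left hs
      have h3 := congrFun (congrFun (congrFun hc m) (fun i : Fin (m + 1) => (i : ℕ))) (ix E φ)
      unfold cod at h3
      have h4 := decide_eq_decide.1 h3
      rw [ix_spec hE hφ] at h4
      rw [hm S ρ (fun s => ρ (tu (fun i : Fin (m + 1) => (i : ℕ)) s))
          (fun i hi => by simp only [h2 i hi]),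
        hm S' ρ' (fun s => ρ' (tu (fun i : Fin (m + 1) => (i : ℕ)) s))
          (fun i hi => by simp only [h2 i hi])]
      exact h4
    obtain ⟨f, -⟩ := hG L S S' ρ ρ' (hρ.gen hd) (hρ'.gen hd') h1
    exact ⟨f⟩

end Pool.Agent.L7h44.GC
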